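import Pool.Agent.H463Z.Split.BWin

namespace Pool.Agent.Results.MP_c086f7_lc.AUndetermined

open Pool.Agent.H463Z.Split

universe u

theorem result (E : Type u) (h1 : Cardinal.aleph0 < Cardinal.mk E)
    (h2 : Cardinal.mk E ≤ Cardinal.continuum) : ¬ AHasWinning E ∧ ¬ BHasWinning E := by
  have : Uncountable E := Cardinal.aleph0_lt_mk_iff.1 h1
  refine ⟨not_AHasWinning E, ?_⟩
  have h3 : Nonempty (E ↪ (ℕ → Bool)) := by
    rw [← Cardinal.lift_mk_le', mk_cantor]
    simpa using h2
  obtain ⟨e⟩ := h3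
  exact not_BHasWinning E e

end Pool.Agent.Results.MP_c086f7_lc.AUndetermined
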