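import Pool.Agent.H463Z.Split.AWin

namespace Pool.Agent.Results.MP_c086f7_lc.BNeverA

open Pool.Agent.H463Z.Split

universe u

theorem result (E : Type u) (h : Cardinal.aleph0 < Cardinal.mk E) : ¬ AHasWinning E := by
  have : Uncountable E := Cardinal.aleph0_lt_mk_iff.1 h
  exact not_AHasWinning E

end Pool.Agent.Results.MP_c086f7_lc.BNeverA
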